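import Mathlib

/-!
# Frozen side of MP_43d240_ag: the graded ring `B = k[y_0 τ, …, y_M τ] ⊆ K[τ]`

* `SB k y`: the subalgebra of `K[τ]` generated over `k` by the `y_i τ`;
* `gr k y n`: its degree `n` part; `GradedAlgebra (gr k y)`;
* `T k y i = y_i τ`;
* `Ch k y i = k[y_j / y_i : j] ⊆ K`, the charts.
-/

set_option linter.all false

open Polynomial

namespace Pool.Agent.Lib.MP_43d240_ag.FRZ

variable (k : Type) {K : Type} [Field k] [Field K] [Algebra k K] {M : ℕ} (y : Fin (M + 1) → K)

/-- The `k`-algebra `k[y_0 τ, …, y_M τ]` as a subalgebra of `K[τ]`. -/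
noncomputable def SB : Subalgebra k K[X] :=
  Algebra.adjoin k (Set.range fun i => monomial 1 (y i))

/-- The homogeneous part of degree `n`. -/
noncomputable def gr (n : ℕ) : Submodule k (SB k y) where
  carrier := {b | ∃ c : K, (b : K[X]) = monomial n c}
  add_mem' := by
    rintro a b ⟨c, hc⟩ ⟨d, hd⟩
    exact ⟨c + d, by rw [Subalgebra.coe_add, hc, hd, map_add]⟩
  zero_mem' := ⟨0, by simp⟩
  smul_mem' := by
    rintro r a ⟨c, hc⟩
    exact ⟨r • c, by rw [Subalgebra.coe_smul, hc, smul_monomial]⟩

/-- The generators. -/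
noncomputable def T (i : Fin (M + 1)) : SB k y :=
  ⟨monomial 1 (y i), Algebra.subset_adjoin ⟨i, rfl⟩⟩

@[simp] lemma coe_T (i : Fin (M + 1)) : (T k y i : K[X]) = monomial 1 (y i) := rfl

lemma mem_gr {n : ℕ} {b : SB k y} : b ∈ gr k y n ↔ ∃ c : K, (b : K[X]) = monomial n c := Iff.rfl

lemma T_mem (i : Fin (M + 1)) : T k y i ∈ gr k y 1 := ⟨y i, rfl⟩

/-- The surjection from the polynomial ring. -/
noncomputable def ev : MvPolynomial (Fin (M + 1)) k →ₐ[k] SB k y :=
  MvPolynomial.aeval (T k y)

lemma ev_surjective : Function.Surjective (ev k y) := by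
  rintro ⟨b, hb⟩
  have h : ((SB k y).val.comp (ev k y)).range = SB k y := by
    have h1 : (SB k y).val.comp (ev k y) =
        MvPolynomial.aeval (fun i => (monomial 1 (y i) : K[X])) := by
      apply MvPolynomial.algHom_ext
      intro i
      simp [ev]
    rw [h1, ← Algebra.adjoin_range_eq_range_aeval]
    rfl
  have hb' : b ∈ ((SB k y).val.comp (ev k y)).range := by rw [h]; exact hb
  obtain ⟨p, hp⟩ := hb'
  exact ⟨p, Subtype.ext hp⟩

lemma gr_mul {m n : ℕ} {a b : SB k y} (ha : a ∈ gr k y m) (hb : b ∈ gr k y n) :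
    a * b ∈ gr k y (m + n) := by
  obtain ⟨c, hc⟩ := ha
  obtain ⟨d, hd⟩ := hb
  exact ⟨c * d, by rw [Subalgebra.coe_mul, hc, hd, monomial_mul_monomial]⟩

lemma gr_one : (1 : SB k y) ∈ gr k y 0 := ⟨1, by simp⟩

lemma gr_pow {m : ℕ} {a : SB k y} (ha : a ∈ gr k y m) (n : ℕ) : a ^ n ∈ gr k y (n * m) := by
  induction n with
  | zero => rw [pow_zero, zero_mul]; exact gr_one k y
  | succ n ih => rw [pow_succ, add_mul, one_mul]; exact gr_mul k y ih ha

lemma ev_monomial_mem (d : Fin (M + 1) →₀ ℕ) (c : k) :
    ev k y (MvPolynomial.monomial d c) ∈ gr k y d.degree := by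
  rw [ev, MvPolynomial.aeval_monomial, ← Algebra.smul_def]
  apply Submodule.smul_mem
  rw [Finsupp.prod, Finsupp.degree_apply]
  classical
  induction d.support using Finset.induction_on with
  | empty => simpa using gr_one k y
  | insert a s has ih =>
    rw [Finset.prod_insert has, Finset.sum_insert has]
    refine gr_mul k y ?_ ih
    have := gr_pow k y (T_mem k y a) (d a)
    rwa [mul_one] at this

lemma ev_homogeneous {n : ℕ} {p : MvPolynomial (Fin (M + 1)) k} (hp : p.IsHomogeneous n) :
    ev k y p ∈ gr k y n := by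
  rw [MvPolynomial.as_sum p, map_sum]
  refine Submodule.sum_mem _ fun d hd => ?_
  have h1 : d.degree = n := by
    rw [MvPolynomial.mem_support_iff] at hd
    have := hp hd
    rw [Finsupp.degree_eq_weight_one]
    exact this
  have := ev_monomial_mem k y d (p.coeff d)
  rwa [h1] at this

lemma coeff_mem_aux (b : SB k y) (n : ℕ) :
    ∃ a : SB k y, (a : K[X]) = monomial n ((b : K[X]).coeff n) := by
  obtain ⟨p, rfl⟩ := ev_surjective k y b
  refine ⟨ev k y (MvPolynomial.homogeneousComponent n p), ?_⟩
  have h1 : ev k y p = ∑ i ∈ Finset.range (p.totalDegree + 1),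
      ev k y (MvPolynomial.homogeneousComponent i p) := by
    rw [← map_sum, MvPolynomial.sum_homogeneousComponent]
  have h2 : ∀ i, ∃ c : K, (ev k y (MvPolynomial.homogeneousComponent i p) : K[X]) =
      monomial i c := fun i =>
    ev_homogeneous k y (MvPolynomial.homogeneousComponent_isHomogeneous i p)
  choose c hc using h2
  have h3 : (ev k y p : K[X]).coeff n = if n ∈ Finset.range (p.totalDegree + 1) then c n
      else 0 := by
    rw [h1, AddSubmonoidClass.coe_finset_sum, finset_sum_coeff]
    simp only [hc, coeff_monomial]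
    rw [Finset.sum_ite_eq' (Finset.range (p.totalDegree + 1)) n c]
  rw [h3, hc]
  split_ifs with h
  · rfl
  · have h4 : MvPolynomial.homogeneousComponent n p = 0 :=
      MvPolynomial.homogeneousComponent_eq_zero _ _ (by
        rw [Finset.mem_range, not_lt] at h
        omega)
    have h5 := hc n
    rw [h4, map_zero] at h5
    rw [← h5]
    simp

/-- The homogeneous component, as a linear map. -/
noncomputable def comp (n : ℕ) : SB k y →ₗ[k] SB k y where
  toFun b := ⟨monomial n ((b : K[X]).coeff n), by
    obtain ⟨a, ha⟩ := coeff_mem_aux k y b n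
    rw [← ha]
    exact a.2⟩
  map_add' a b := by
    apply Subtype.ext
    simp
  map_smul' r b := by
    apply Subtype.ext
    show monomial n ((r • (b : K[X])).coeff n) = r • monomial n ((b : K[X]).coeff n)
    rw [coeff_smul, smul_monomial]

lemma coe_comp_apply (n : ℕ) (b : SB k y) :
    (comp k y n b : K[X]) = monomial n ((b : K[X]).coeff n) := rfl

lemma comp_mem (n : ℕ) (b : SB k y) : comp k y n b ∈ gr k y n := ⟨_, rfl⟩

lemma comp_of_mem {n : ℕ} {b : SB k y} (hb : b ∈ gr k y n) (m : ℕ) :
    comp k y m b = if m = n then b else 0 := by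
  obtain ⟨c, hc⟩ := hb
  apply Subtype.ext
  rw [coe_comp_apply, hc, coeff_monomial]
  by_cases h1 : m = n
  · rw [if_pos h1, if_pos h1.symm, hc, h1]
  · rw [if_neg h1, if_neg (fun h => h1 h.symm)]
    simp

noncomputable instance instGradedAlgebra : GradedAlgebra (gr k y) where
  one_mem := gr_one k y
  mul_mem _ _ _ _ ha hb := gr_mul k y ha hb
  decompose' b := DirectSum.mk (fun n => gr k y n) (b : K[X]).support
    fun n => ⟨comp k y n b, comp_mem k y n b⟩
  left_inv b := by
    classical
    apply Subtype.ext
    have h1 : (DirectSum.mk (fun n => gr k y n) (b : K[X]).support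
        fun n => ⟨comp k y n b, comp_mem k y n b⟩) =
        ∑ n ∈ (b : K[X]).support, DirectSum.of (fun n => gr k y n) n
          ⟨comp k y n b, comp_mem k y n b⟩ := by
      refine DFinsupp.ext fun i => ?_
      by_cases hi : i ∈ (b : K[X]).support
      · rw [DirectSum.mk_apply_of_mem hi, DFinsupp.finset_sum_apply,
          Finset.sum_eq_single i]
        · exact (DirectSum.of_eq_same (β := fun n => gr k y n) _ _).symm
        · intro j _ hj
          exact DirectSum.of_eq_of_ne (β := fun n => gr k y n) _ _ _ (Ne.symm hj)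
        · intro h; exact absurd hi h
      · rw [DirectSum.mk_apply_of_notMem hi, DFinsupp.finset_sum_apply,
          Finset.sum_eq_zero]
        intro j hj
        have : j ≠ i := by rintro rfl; exact hi hj
        exact DirectSum.of_eq_of_ne (β := fun n => gr k y n) _ _ _ (Ne.symm this)
    show ((DirectSum.coeAddMonoidHom (gr k y)) (DirectSum.mk (fun n => gr k y n)
      (b : K[X]).support fun n => ⟨comp k y n b, comp_mem k y n b⟩) : K[X]) = b
    rw [h1, map_sum]
    simp only [DirectSum.coeAddMonoidHom_of]
    rw [AddSubmonoidClass.coe_finset_sum]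
    simp only [coe_comp_apply]
    exact ((b : K[X]).as_sum_support).symm
  right_inv x := by
    classical
    have key : ∀ (x : DirectSum ℕ (fun n => gr k y n)) (n : ℕ),
        comp k y n (DirectSum.coeAddMonoidHom (fun n => gr k y n) x) = x n := by
      intro x n
      induction x using DirectSum.induction_on with
      | zero => simp
      | of i a =>
        rw [DirectSum.coeAddMonoidHom_of, comp_of_mem k y a.2]
        split_ifs with h
        · subst h
          rw [DirectSum.of_eq_same]
        · rw [DirectSum.of_eq_of_ne _ _ _ h]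
          rfl
      | add u v hu hv =>
        rw [map_add, map_add, hu, hv]
        rfl
    refine DFinsupp.ext fun i => ?_
    apply Subtype.ext
    set b := DirectSum.coeAddMonoidHom (fun n => gr k y n) x with hb
    show ((DirectSum.mk (fun n => gr k y n)
      (b : K[X]).support fun n => ⟨comp k y n b, comp_mem k y n b⟩) i : SB k y) = x i
    by_cases hi : i ∈ (b : K[X]).support
    · rw [DirectSum.mk_apply_of_mem hi]
      exact key x i
    · rw [DirectSum.mk_apply_of_notMem hi, ← key x i, ← hb]
      apply Subtype.ext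
      rw [coe_comp_apply, notMem_support_iff.mp hi, map_zero]
      rfl

/-- The chart `k[y_j / y_i : j]`. -/
noncomputable def Ch (i : Fin (M + 1)) : Subalgebra k K :=
  Algebra.adjoin k (Set.range fun j => y j / y i)

/-- The charts in `I` cover: some power of each `y_j` is `Σ_{i ∈ I} y_i (form of degree N in y)`. -/
def Covers (I : Set (Fin (M + 1))) : Prop :=
  ∀ j, ∃ N : ℕ, y j ^ (N + 1) ∈
    Submodule.span k (y '' I) * Submodule.span k (Set.range y) ^ N

end Pool.Agent.Lib.MP_43d240_ag.FRZ
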